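import Mathlib

/-!
# Motivic cohomology in small degrees and quotients by algebraic groups: definitions
-/

set_option autoImplicit false

namespace Pool.Agent.Q73.BV

universe u w

/-- Smooth complex varieties (`Var`), their rational motivic cohomology groups
`H X k j = H^k(X, ℚ(j)) = CH^j(X, 2j - k)_ℚ`, five kinds of morphisms `X ⟶ Y` between them and two
classes of varieties. Intended meaning:

* `Affine X Y`: `X ⟶ Y` is a torsor under a vector bundle on `Y`, or under a connected unipotent
  group;
* `Mult X Y`: `X ⟶ Y` is a torsor under the multiplicative group;
* `Flag X Y`: there are a torsor `Z ⟶ Y` under a connected linear algebraic group `G` and a Borel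
  subgroup `B` of `G` with `X = Z / B`;
* `Abel X Y`: `X ⟶ Y` is a torsor under an abelian variety (possibly trivial);
* `Fin X Y`: `X ⟶ Y` is a torsor under a finite group;
* `Projective X`: `X` is projective;
* `Special X`: for some `N` the variety `X` is a closed subvariety of the affine space of dimension
  `N` whose ideal is generated by `N - dim X` elements, and its tangent bundle is trivial. -/
structure Varieties where
  Var : Type u
  H : Var → ℤ → ℤ → Type w
  group : ∀ X k j, AddCommGroup (H X k j)
  Affine : Var → Var → Prop
  Mult : Var → Var → Prop
  Flag : Var → Var → Prop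
  Abel : Var → Var → Prop
  Fin : Var → Var → Prop
  Projective : Var → Prop
  Special : Var → Prop

attribute [instance] Varieties.group

/-- The degrees `(k, j)` in which motivic cohomology is known to vanish: negative twists, and
negative degrees for the twist zero. -/
def Trivial (k j : ℤ) : Prop := j < 0 ∨ (j = 0 ∧ k < 0)

/-- A set `S` of degrees `(k, j)` such that with `(k, j)` also `(k - 1, j - 1)` and `(k - 2, j - 1)`
lie in `S`, or are degrees in which motivic cohomology is known to vanish. -/
def Good (S : ℤ → ℤ → Prop) : Prop :=
  ∀ k j, S k j → (S (k - 1) (j - 1) ∨ Trivial (k - 1) (j - 1)) ∧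
    (S (k - 2) (j - 1) ∨ Trivial (k - 2) (j - 1))

namespace Varieties

variable (D : Varieties.{u, w})

/-- The motivic cohomology of `X` vanishes in the degrees of `S`. -/
def Vanish (S : ℤ → ℤ → Prop) (X : D.Var) : Prop := ∀ k j, S k j → Subsingleton (D.H X k j)

/-- `X ⟶ Y` is a torsor under a connected linear algebraic group `G`, with Borel subgroup `B` and
unipotent radical `U` of `B`: it factors as `X ⟶ X / U ⟶ X / B ⟶ Y`, where the second morphism
is a composite of torsors under the multiplicative group. -/
def LinearTorsor (X Y : D.Var) : Prop :=
  ∃ X₁ X₂ : D.Var, D.Affine X X₁ ∧ Relation.ReflTransGen D.Mult X₁ X₂ ∧ D.Flag X₂ Y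

/-- `X ⟶ Y` is a torsor under an algebraic group `G`: it factors as `X ⟶ X / L ⟶ X / H ⟶ Y` with
`H` the connected component of `G`, `G / H` finite, `L` connected linear and `H / L` an abelian
variety (Chevalley). -/
def Torsor (X Y : D.Var) : Prop :=
  ∃ Z W : D.Var, D.LinearTorsor X Z ∧ D.Abel Z W ∧ D.Fin W Y

/-- `X` and `Y` are joined by a chain, in both directions, of torsors under vector bundles and
under connected linear algebraic groups. -/
def Joined : D.Var → D.Var → Prop :=
  Relation.EqvGen (fun X Y => D.Affine X Y ∨ D.LinearTorsor X Y)

/-- For every `Y` there are a torsor `Y' ⟶ Y` under a vector bundle (Jouanolou, Thomason: with `Y'`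
affine) and a torsor `X ⟶ Y'` under a general linear group (the bundle of frames of the tangent
bundle of `Y'`) such that `X` is special (the tangent bundle of `X` is trivial; its conormal
bundles in affine spaces are stably free, hence free in large affine spaces by a theorem of Bass;
so `X` is a complete intersection by a theorem of Mohan Kumar). -/
def FrameBundles : Prop :=
  ∀ Y : D.Var, ∃ Y' X : D.Var, D.Affine Y' Y ∧ D.LinearTorsor X Y' ∧ D.Special X

/-- Resolution of singularities and the localization sequences: if the cohomology of the projective
varieties vanishes in the degrees of a good set `S`, then so does the cohomology of all smooth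
varieties. -/
def Localization : Prop :=
  ∀ S : ℤ → ℤ → Prop, Good S → (∀ Y, D.Projective Y → D.Vanish S Y) → ∀ X, D.Vanish S X

/-- The known properties of motivic cohomology which are used.

* `zero`: vanishing for negative twists, and in negative degrees for the twist zero;
* `affine`: homotopy invariance;
* `gysin`: for a torsor `X` under the multiplicative group over `Y` the long exact sequence of the
  complement of the zero section of the line bundle, in which `c` is the product with the first
  Chern class;
* `flag`: the cohomology of a flag bundle (Leray-Hirsch theorem, rational coefficients);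
* `abel`, `finite`: with rational coefficients the cohomology of `Y` injects into the one of a
  torsor under an abelian variety or under a finite group. -/
structure IsCohomology : Prop where
  zero : ∀ X k j, Trivial k j → Subsingleton (D.H X k j)
  affine : ∀ X Y, D.Affine X Y → ∀ k j, Nonempty (D.H X k j ≃+ D.H Y k j)
  gysin : ∀ X Y, D.Mult X Y → ∀ k j, ∃ (c : D.H Y (k - 2) (j - 1) →+ D.H Y k j)
    (p : D.H Y k j →+ D.H X k j) (d : D.H X k j →+ D.H Y (k - 1) (j - 1)),
      Function.Exact c p ∧ Function.Exact p d
  flag : ∀ X Y, D.Flag X Y → ∃ l : List ℕ, ∀ k j, Nonempty (D.H X k j ≃+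
    (D.H Y k j × ∀ i : _root_.Fin l.length, D.H Y (k - 2 * l.get i) (j - l.get i)))
  abel : ∀ X Y, D.Abel X Y → ∀ k j, ∃ p : D.H Y k j →+ D.H X k j, Function.Injective p
  finite : ∀ X Y, D.Fin X Y → ∀ k j, ∃ p : D.H Y k j →+ D.H X k j, Function.Injective p

end Varieties

end Pool.Agent.Q73.BV
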