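import Pool.Agent.Q73.BV.Defs

/-!
# Motivic cohomology in small degrees and quotients by algebraic groups
-/

set_option autoImplicit false

namespace Pool.Agent.Q73.BV

universe u w

variable {D : Varieties.{u, w}} {S : ℤ → ℤ → Prop}

lemma good_neg : Good (fun k _ => k < 0) := by
  intro k j h
  exact ⟨Or.inl (by omega), Or.inl (by omega)⟩

lemma good_below (J : ℤ) : Good (fun k j => k < 0 ∧ j ≤ J) := by
  intro k j h
  exact ⟨Or.inl (by omega), Or.inl (by omega)⟩

lemma good_strong (J : ℤ) : Good (fun k j => k ≤ 0 ∧ 1 ≤ j ∧ j ≤ J) := by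
  intro k j h
  unfold Trivial
  by_cases hj : j = 1
  · exact ⟨Or.inr (Or.inr (by omega)), Or.inr (Or.inr (by omega))⟩
  · exact ⟨Or.inl (by omega), Or.inl (by omega)⟩

lemma ext_step (hS : Good S) {k j : ℤ} (h : S k j ∨ Trivial k j) :
    S (k - 2) (j - 1) ∨ Trivial (k - 2) (j - 1) := by
  rcases h with h | h
  · exact (hS k j h).2
  · right
    unfold Trivial at h ⊢
    omega

lemma ext_shift (hS : Good S) {k j : ℤ} (h : S k j ∨ Trivial k j) :
    ∀ n : ℕ, S (k - 2 * n) (j - n) ∨ Trivial (k - 2 * n) (j - n) := by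
  intro n
  induction n with
  | zero => simpa using h
  | succ n ih =>
    have h1 := ext_step hS ih
    have e1 : k - 2 * (n : ℤ) - 2 = k - 2 * ((n + 1 : ℕ) : ℤ) := by push_cast; ring
    have e2 : j - (n : ℤ) - 1 = j - ((n + 1 : ℕ) : ℤ) := by push_cast; ring
    rwa [e1, e2] at h1

lemma Varieties.Vanish.ext (hD : D.IsCohomology) {X : D.Var} (h : D.Vanish S X) {k j : ℤ}
    (hk : S k j ∨ Trivial k j) : Subsingleton (D.H X k j) :=
  hk.elim (h k j) (hD.zero X k j)

lemma affine_iff (hD : D.IsCohomology) {X Y : D.Var} (h : D.Affine X Y) :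
    D.Vanish S X ↔ D.Vanish S Y := by
  constructor
  · intro hX k j hk
    obtain ⟨e⟩ := hD.affine X Y h k j
    have := hX k j hk
    exact e.symm.toEquiv.subsingleton
  · intro hY k j hk
    obtain ⟨e⟩ := hD.affine X Y h k j
    have := hY k j hk
    exact e.toEquiv.subsingleton

lemma mult_iff (hD : D.IsCohomology) (hS : Good S) {X Y : D.Var} (h : D.Mult X Y) :
    D.Vanish S X ↔ D.Vanish S Y := by
  constructor
  · intro hX
    have key : ∀ (n : ℕ) (k j : ℤ), j < n → (S k j ∨ Trivial k j) →
        Subsingleton (D.H Y k j) := by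
      intro n
      induction n with
      | zero =>
        intro k j hj _
        exact hD.zero Y k j (Or.inl (by exact_mod_cast hj))
      | succ n ih =>
        intro k j hj hk
        have h1 := ih (k - 2) (j - 1) (by push_cast at hj; omega) (ext_step hS hk)
        have h2 := hX.ext hD hk
        obtain ⟨c, p, d, e1, -⟩ := hD.gysin X Y h k j
        refine subsingleton_of_forall_eq 0 fun a => ?_
        obtain ⟨b, rfl⟩ := (e1 a).1 (Subsingleton.elim _ _)
        rw [Subsingleton.elim b 0, map_zero]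
    intro k j hk
    exact key (j.toNat + 1) k j (by omega) (Or.inl hk)
  · intro hY k j hk
    have h1 := hY.ext hD (hS k j hk).1
    have h2 := hY k j hk
    obtain ⟨c, p, d, -, e2⟩ := hD.gysin X Y h k j
    refine subsingleton_of_forall_eq 0 fun a => ?_
    obtain ⟨b, rfl⟩ := (e2 a).1 (Subsingleton.elim _ _)
    rw [Subsingleton.elim b 0, map_zero]

lemma flag_iff (hD : D.IsCohomology) (hS : Good S) {X Y : D.Var} (h : D.Flag X Y) :
    D.Vanish S X ↔ D.Vanish S Y := by
  obtain ⟨l, hl⟩ := hD.flag X Y h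
  constructor
  · intro hX k j hk
    obtain ⟨e⟩ := hl k j
    have h1 := hX k j hk
    have h2 := e.symm.toEquiv.subsingleton
    refine subsingleton_of_forall_eq 0 fun a => ?_
    have h3 := Subsingleton.elim ((a, 0) : D.H Y k j × ∀ i : Fin l.length,
      D.H Y (k - 2 * l.get i) (j - l.get i)) (0, 0)
    exact congrArg Prod.fst h3
  · intro hY k j hk
    obtain ⟨e⟩ := hl k j
    have h1 := hY k j hk
    have h2 : ∀ i : Fin l.length, Subsingleton (D.H Y (k - 2 * l.get i) (j - l.get i)) :=
      fun i => hY.ext hD (ext_shift hS (Or.inl hk) (l.get i))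
    exact e.toEquiv.subsingleton

lemma torus_iff (hD : D.IsCohomology) (hS : Good S) {X Y : D.Var}
    (h : Relation.ReflTransGen D.Mult X Y) : D.Vanish S X ↔ D.Vanish S Y := by
  induction h with
  | refl => exact Iff.rfl
  | tail _ hXY ih => exact ih.trans (mult_iff hD hS hXY)

lemma linear_iff (hD : D.IsCohomology) (hS : Good S) {X Y : D.Var} (h : D.LinearTorsor X Y) :
    D.Vanish S X ↔ D.Vanish S Y := by
  obtain ⟨X₁, X₂, h1, h2, h3⟩ := h
  exact (affine_iff hD h1).trans ((torus_iff hD hS h2).trans (flag_iff hD hS h3))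

lemma joined_iff (hD : D.IsCohomology) (hS : Good S) {X Y : D.Var} (h : D.Joined X Y) :
    D.Vanish S X ↔ D.Vanish S Y := by
  induction h with
  | rel X Y hr =>
    rcases hr with hr | hr
    · exact affine_iff hD hr
    · exact linear_iff hD hS hr
  | refl => exact Iff.rfl
  | symm X Y _ ih => exact ih.symm
  | trans X Y Z _ _ ih1 ih2 => exact ih1.trans ih2

lemma torsor_imp (hD : D.IsCohomology) (hS : Good S) {X Y : D.Var} (h : D.Torsor X Y)
    (hX : D.Vanish S X) : D.Vanish S Y := by
  obtain ⟨Z, W, h1, h2, h3⟩ := h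
  intro k j hk
  have h4 := (linear_iff hD hS h1).1 hX k j hk
  obtain ⟨p, hp⟩ := hD.abel Z W h2 k j
  have h5 := hp.subsingleton
  obtain ⟨q, hq⟩ := hD.finite W Y h3 k j
  exact hq.subsingleton

end Pool.Agent.Q73.BV
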